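import Pool.Agent.H629.TA.Stm

/-! Squares. -/

set_option autoImplicit false

namespace Pool.Agent.H695.TA.SQ

open Finset Pool.Agent.H629.TA

theorem draw_sum {m : ℕ} (s : Finset ℕ) (p : ℕ → ℝ) {ι : Type} (t : Finset ι)
    (g : ι → (Fin m → ℕ) → ℝ) :
    draw m s p (fun j => ∑ i ∈ t, g i j) = ∑ i ∈ t, draw m s p (g i) := by
  unfold draw
  rw [Finset.sum_comm]
  refine Finset.sum_congr rfl fun j _ => ?_
  rw [Finset.mul_sum]

theorem draw_one (s : Finset ℕ) (p : ℕ → ℝ) (φ : (Fin 1 → ℕ) → ℝ) :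
    draw 1 s p φ = ∑ a ∈ s, p a * φ (fun _ => a) := by
  unfold draw
  refine Finset.sum_nbij' (fun j => j 0) (fun a _ => a) ?_ ?_ ?_ ?_ ?_
  · intro j hj
    rw [Fintype.mem_piFinset] at hj
    exact hj 0
  · intro a ha
    rw [Fintype.mem_piFinset]
    intro _
    exact ha
  · intro j _
    funext i
    rw [Subsingleton.elim i 0]
  · intro a _
    rfl
  · intro j _
    have e : (fun _ : Fin 1 => j 0) = j := by
      funext i
      rw [Subsingleton.elim i 0]
    rw [e, Fin.prod_univ_one]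

theorem cnt_sum {m : ℕ} (s : Finset ℕ) (f : ℕ → ℝ) (j : Fin m → ℕ) (hj : ∀ l, j l ∈ s) :
    ∑ a ∈ s, (cnt j a : ℝ) * f a = ∑ l, f (j l) := by
  have h1 : ∀ a ∈ s, (cnt j a : ℝ) * f a = ∑ l : Fin m, if j l = a then f (j l) else 0 := by
    intro a _
    unfold cnt
    rw [← Finset.sum_filter, Finset.sum_congr rfl (g := fun _ => f a), Finset.sum_const,
      nsmul_eq_mul]
    intro l hl
    rw [(Finset.mem_filter.1 hl).2]
  rw [Finset.sum_congr rfl h1, Finset.sum_comm]
  refine Finset.sum_congr rfl fun l _ => ?_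
  rw [Finset.sum_ite_eq, if_pos (hj l)]

theorem t_SQ : S_DR → S_MG → S_SQ := by
  intro hDR hMG m s p hp hs f
  obtain ⟨_, _, h3, h4, _, _⟩ := hDR m s p
  have hle : draw m s p (fun j => (∑ a ∈ s, (cnt j a : ℝ) * f a) ^ 2) ≤
      draw m s p (fun j => (m : ℝ) * ∑ l : Fin m, f (j l) ^ 2) := by
    apply h4 _ _ hp
    intro j hj
    rw [cnt_sum s f j hj]
    have h := sq_sum_le_card_mul_sum_sq (s := (Finset.univ : Finset (Fin m)))
      (f := fun l => f (j l))
    rw [Finset.card_univ, Fintype.card_fin] at h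
    exact h
  refine hle.trans (le_of_eq ?_)
  rw [h3, draw_sum]
  have h5 : ∀ l : Fin m, draw m s p (fun j => f (j l) ^ 2) = ∑ a ∈ s, p a * f a ^ 2 := by
    intro l
    have h6 := hMG m 1 s p (fun _ => l) (fun a b _ => Subsingleton.elim a b) hs
      (fun i => f (i 0) ^ 2)
    rw [draw_one] at h6
    exact h6
  rw [Finset.sum_congr rfl fun l _ => h5 l, Finset.sum_const, Finset.card_univ, Fintype.card_fin,
    nsmul_eq_mul]
  ring

end Pool.Agent.H695.TA.SQ
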